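import Pool.Agent.Helper85.EV4.Sel

/-!
# MP_ea8a26, project C5: pairs of crossings in the twist regions

`J` is a maximal set of disjoint pairs of consecutive crossings of twist regions; the crossings outside the pairs are at most as many as the twist regions with
exactly one crossing and the inner crossings together.
-/

set_option autoImplicit false

namespace Pool.Agent.Helper57.C5

open Classical Pool.Agent.Helper85.Exp Pool.Agent.Helper43.Pln Pool.Agent.Helper2.V8B Pool.Agent.Helper85.EV4 Pool.Agent.Helper60.EV2

variable {P : Type} {G : Sh P}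

/-- The number of twist regions with exactly one crossing: no bigon with parallel edges after it or before it. -/
noncomputable def singles (G : Sh P) : ℕ := Nat.card {p : P // G.lf p = true ∧ ¬ Bigon G p ∧ ¬ Bigon G ((seifert G).symm p)}

/-- A set of disjoint pairs: the crossing of `p` and the next one, which is the crossing of `seifert G p`. -/
structure Pr (G : Sh P) (J : Finset P) : Prop where
  lf : ∀ p ∈ J, G.lf p = true
  big : ∀ p ∈ J, Bigon G p
  ne : ∀ p ∈ J, seifert G p ≠ p
  disj : ∀ p ∈ J, seifert G p ∉ J

theorem seifert_apply (p : P) : seifert G p = G.op (G.nxt p) := rfl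

theorem seifert_symm_apply (p : P) : (seifert G).symm p = G.nxt.symm (G.op p) := rfl

theorem lf_next {p : P} (h : Bigon G p) : G.lf (seifert G p) = G.lf p := h.2

theorem big_op {p : P} (ho : ∀ i, G.op i ≠ i) (h : Bigon G p) : Bigon G (G.op p) := by
  refine ⟨?_, ?_⟩
  · rw [G.op_op, h.1, G.op_op]
  · rw [h.1, G.op_op, G.lf_op _ (ho p), ← h.2, G.lf_op _ (ho _), Bool.not_not]

variable [Fintype P]

/-- The crossings outside the pairs. -/
noncomputable def Out (G : Sh P) (J : Finset P) : Finset P :=
  Finset.univ.filter fun p => G.lf p = true ∧ p ∉ J ∧ (seifert G).symm p ∉ J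

theorem mem_Out {J : Finset P} {p : P} : p ∈ Out G J ↔ G.lf p = true ∧ p ∉ J ∧ (seifert G).symm p ∉ J := by
  simp [Out]

/-- The number of crossings. -/
theorem card_split {J : Finset P} (h : Pr G J) : 2 * J.card + (Out G J).card = crossings G := by
  have h1 : (Finset.univ.filter fun p : P => G.lf p = true) = J ∪ J.map (seifert G).toEmbedding ∪ Out G J := by
    ext p
    simp only [Finset.mem_union, Finset.mem_filter, Finset.mem_univ, true_and, mem_Out, Finset.mem_map, Equiv.coe_toEmbedding]
    constructor
    · intro hp
      by_cases h1 : p ∈ J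
      · exact Or.inl (Or.inl h1)
      · by_cases h2 : (seifert G).symm p ∈ J
        · exact Or.inl (Or.inr ⟨_, h2, Equiv.apply_symm_apply _ _⟩)
        · exact Or.inr ⟨hp, h1, h2⟩
    · rintro ((h1 | ⟨q, hq, rfl⟩) | ⟨h1, -, -⟩)
      · exact h.lf p h1
      · exact (lf_next (h.big q hq)).trans (h.lf q hq)
      · exact h1
  have h2 : Disjoint J (J.map (seifert G).toEmbedding) := by
    rw [Finset.disjoint_right]
    intro p hp
    simp only [Finset.mem_map, Equiv.coe_toEmbedding] at hp
    obtain ⟨q, hq, rfl⟩ := hp
    exact h.disj q hq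
  have h3 : Disjoint (J ∪ J.map (seifert G).toEmbedding) (Out G J) := by
    rw [Finset.disjoint_right]
    intro p hp
    rw [mem_Out] at hp
    simp only [Finset.mem_union, Finset.mem_map, Equiv.coe_toEmbedding, not_or]
    refine ⟨hp.2.1, ?_⟩
    rintro ⟨q, hq, rfl⟩
    exact hp.2.2 (by rwa [Equiv.symm_apply_apply])
  have h4 : crossings G = (Finset.univ.filter fun p : P => G.lf p = true).card := by
    unfold crossings
    rw [Nat.card_eq_fintype_card, Fintype.card_subtype]
  rw [h4, h1, Finset.card_union_of_disjoint h3, Finset.card_union_of_disjoint h2, Finset.card_map]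
  omega

/-- A maximal set of pairs. -/
theorem exists_max (G : Sh P) : ∃ J : Finset P, Pr G J ∧ ∀ p ∈ Out G J, Bigon G p → seifert G p ≠ p → seifert G p ∉ Out G J := by
  obtain ⟨J, hJ, hmax⟩ := ((Finset.univ : Finset P).powerset.filter (fun J => Pr G J)).exists_maximal
    ⟨∅, by
      rw [Finset.mem_filter]
      refine ⟨by simp, ⟨by simp, by simp, by simp, by simp⟩⟩⟩
  rw [Finset.mem_filter] at hJ
  have h := hJ.2
  refine ⟨J, h, fun p hp hb hne hq => ?_⟩
  rw [mem_Out] at hp hq
  have h1 : Pr G (insert p J) := by
    refine ⟨?_, ?_, ?_, ?_⟩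
    · intro q hq
      rcases Finset.mem_insert.1 hq with rfl | hq
      · exact hp.1
      · exact h.lf q hq
    · intro q hq
      rcases Finset.mem_insert.1 hq with rfl | hq
      · exact hb
      · exact h.big q hq
    · intro q hq
      rcases Finset.mem_insert.1 hq with rfl | hq
      · exact hne
      · exact h.ne q hq
    · intro q hq1 hq2
      rcases Finset.mem_insert.1 hq1 with rfl | hq3
      · rcases Finset.mem_insert.1 hq2 with h2 | h2
        · exact hne h2
        · exact hq.2.1 h2
      · rcases Finset.mem_insert.1 hq2 with h2 | h2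
        · apply hp.2.2
          rw [← h2, Equiv.symm_apply_apply]
          exact hq3
        · exact h.disj q hq3 h2
  have h2 : insert p J ∈ (Finset.univ : Finset P).powerset.filter (fun J => Pr G J) := by
    rw [Finset.mem_filter]
    exact ⟨by simp, h1⟩
  exact hp.2.1 ((hmax h2 (Finset.subset_insert p J)) (Finset.mem_insert_self p J))

/-- A crossing between a crossing outside the pairs and a crossing of a pair is an inner one (the pair comes after it). -/
theorem inner_of_next (ho : ∀ i, G.op i ≠ i) {J : Finset P} (h : Pr G J) {x : P} (hx : x ∈ Out G J) (hb : Bigon G x)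
    (hy : seifert G x ∈ J) : Inner G (seifert G x) := by
  rw [mem_Out] at hx
  have hlf : G.lf (seifert G x) = true := h.lf _ hy
  have e1 : G.nxt.symm (seifert G x) = G.op x := by
    rw [seifert_apply, ← hb.1, Equiv.symm_apply_apply]
  have hne := h.ne _ hy
  have hxy : seifert G x ≠ x := fun e => hx.2.1 (e ▸ hy)
  refine ⟨h.big _ hy, ?_, ?_, ?_, ?_, ?_⟩
  · rw [e1]
    exact big_op ho hb
  · intro e
    apply hne
    rw [seifert_apply (G := G) (seifert G x), e, G.op_op]
  · rw [e1]
    intro e
    apply hxy
    have := congrArg G.op e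
    rw [G.op_op, G.op_op] at this
    exact this.symm
  · rw [e1]
    intro e
    have h1 : seifert G (seifert G x) = x := by
      rw [seifert_apply (G := G) (seifert G x), e, G.op_op]
    apply hx.2.2
    have h2 : (seifert G).symm x = seifert G x := by
      rw [Equiv.symm_apply_eq]
      exact h1.symm
    rw [h2]
    exact hy
  · rw [e1, G.op_op]
    intro e
    have h1 : G.lf (seifert G (seifert G x)) = G.lf (seifert G x) := lf_next (h.big _ hy)
    rw [seifert_apply (G := G) (seifert G x), e, G.lf_op _ (ho x), hx.1, hlf] at h1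
    simp at h1

/-- The same, the pair comes before it. -/
theorem inner_of_prev (ho : ∀ i, G.op i ≠ i) {J : Finset P} (h : Pr G J) {x : P} (hx : x ∈ Out G J)
    (hb : Bigon G ((seifert G).symm x)) (hy : (seifert G).symm ((seifert G).symm x) ∈ J) : Inner G ((seifert G).symm x) := by
  rw [mem_Out] at hx
  obtain ⟨u, hu⟩ : ∃ u, u = (seifert G).symm ((seifert G).symm x) := ⟨_, rfl⟩
  rw [← hu] at hy
  have e0 : (seifert G).symm x = seifert G u := by rw [hu, Equiv.apply_symm_apply]
  have e2 : seifert G (seifert G u) = x := by rw [← e0, Equiv.apply_symm_apply]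
  rw [e0] at hb ⊢
  have hbu := h.big u hy
  have e1 : G.nxt.symm (seifert G u) = G.op u := by
    rw [seifert_apply, ← hbu.1, Equiv.symm_apply_apply]
  have hne := h.ne u hy
  refine ⟨hb, ?_, ?_, ?_, ?_, ?_⟩
  · rw [e1]
    exact big_op ho hbu
  · intro e
    have h1 : seifert G (seifert G u) = seifert G u := by
      rw [seifert_apply (G := G) (seifert G u), e, G.op_op]
    apply hx.2.1
    rw [← e2, h1, (seifert G).injective h1]
    exact hy
  · rw [e1]
    intro e
    apply hne
    have := congrArg G.op e
    rw [G.op_op, G.op_op] at this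
    exact this.symm
  · rw [e1]
    intro e
    apply hx.2.1
    rw [← e2, seifert_apply (G := G) (seifert G u), e, G.op_op]
    exact hy
  · rw [e1, G.op_op]
    intro e
    have h1 : G.lf (seifert G (seifert G u)) = G.lf (seifert G u) := lf_next hb
    rw [lf_next hbu, seifert_apply (G := G) (seifert G u), e, G.lf_op _ (ho u)] at h1
    revert h1
    cases G.lf u <;> simp

/-- If a crossing is the next one of itself, there is no other one. -/
theorem loop_one (hc : Pool.Agent.Helper2.PD.Conn G) {x : P} (hb : Bigon G x) (hx : seifert G x = x) : ∀ i, i = x ∨ i = G.op x := by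
  have h1 : G.nxt x = G.op x := by
    rw [← G.op_op (G.nxt x)]
    exact congrArg G.op hx
  have h2 : G.nxt (G.op x) = x := by rw [hb.1, h1, G.op_op]
  refine hc (fun i => i = x ∨ i = G.op x) ⟨x, Or.inl rfl⟩ (fun v => ?_) (fun v => ?_)
  · constructor
    · rintro (h | h)
      · refine Or.inr (G.nxt.injective ?_)
        rw [h, h2]
      · refine Or.inl (G.nxt.injective ?_)
        rw [h, h1]
    · rintro (h | h)
      · rw [h, h1]
        exact Or.inr rfl
      · rw [h, h2]
        exact Or.inl rfl
  · constructor
    · rintro (h | h)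
      · refine Or.inr ?_
        rw [← h, G.op_op]
      · refine Or.inl ?_
        rw [← G.op_op v, h, G.op_op]
    · rintro (h | h)
      · rw [h]
        exact Or.inr rfl
      · rw [h, G.op_op]
        exact Or.inl rfl

/-- **The pairs.** -/
theorem pairs (ho : ∀ i, G.op i ≠ i) (hc : Pool.Agent.Helper2.PD.Conn G) (h2 : 2 ≤ crossings G) :
    ∃ J : Finset P, Pr G J ∧ 2 * J.card + (Out G J).card = crossings G ∧ (Out G J).card ≤ singles G + inner G := by
  obtain ⟨J, h, hmax⟩ := exists_max G
  refine ⟨J, h, card_split h, ?_⟩
  -- no crossing is the next one of itself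
  have hloop : ∀ x, Bigon G x → seifert G x ≠ x := by
    intro x hb hx
    have h3 := loop_one hc hb hx
    have h4 := card_eq (G := G) ho
    have h5 : Nat.card P ≤ 2 := by
      rw [Nat.card_eq_fintype_card, ← Finset.card_univ]
      refine (Finset.card_le_card (t := {x, G.op x}) ?_).trans Finset.card_le_two
      intro i _
      simpa using h3 i
    omega
  have hnext : ∀ x ∈ Out G J, Bigon G x → seifert G x ∈ J := by
    intro x hx hb
    have h3 := hmax x hx hb (hloop x hb)
    rw [mem_Out] at h3 hx
    by_contra h4
    exact h3 ⟨(lf_next hb).trans hx.1, h4, by rw [Equiv.symm_apply_apply]; exact hx.2.1⟩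
  have hprev : ∀ x ∈ Out G J, Bigon G ((seifert G).symm x) → (seifert G).symm ((seifert G).symm x) ∈ J := by
    intro x hx hb
    have e : seifert G ((seifert G).symm x) = x := Equiv.apply_symm_apply _ _
    have h3 : (seifert G).symm x ∉ Out G J := by
      intro h4
      have h5 := hmax _ h4 hb (hloop _ hb)
      rw [e] at h5
      exact h5 hx
    rw [mem_Out] at h3 hx
    by_contra h4
    have h5 := lf_next hb
    rw [e] at h5
    exact h3 ⟨h5.symm.trans hx.1, hx.2.2, h4⟩
  have h3 : (Out G J).card = ((Out G J).filter fun x => ¬ Bigon G x ∧ ¬ Bigon G ((seifert G).symm x)).card +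
      ((Out G J).filter fun x => ¬ (¬ Bigon G x ∧ ¬ Bigon G ((seifert G).symm x))).card :=
    (Finset.card_filter_add_card_filter_not _).symm
  rw [h3]
  refine Nat.add_le_add ?_ ?_
  · unfold singles
    rw [Nat.card_eq_fintype_card, Fintype.card_subtype]
    refine Finset.card_le_card fun x hx => ?_
    rw [Finset.mem_filter, mem_Out] at hx
    rw [Finset.mem_filter]
    exact ⟨Finset.mem_univ _, hx.1.1, hx.2⟩
  · unfold Pool.Agent.Helper85.EV4.inner
    rw [Nat.card_eq_fintype_card, Fintype.card_subtype]
    refine Finset.card_le_card_of_injOn (fun x => if Bigon G x then seifert G x else (seifert G).symm x) ?_ ?_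
    · intro x hx
      rw [Finset.mem_coe, Finset.mem_filter] at hx
      rw [Finset.mem_coe, Finset.mem_filter]
      refine ⟨Finset.mem_univ _, ?_⟩
      by_cases hb : Bigon G x
      · simp only [if_pos hb]
        exact ⟨h.lf _ (hnext x hx.1 hb), inner_of_next ho h hx.1 hb (hnext x hx.1 hb)⟩
      · simp only [if_neg hb]
        have hb' : Bigon G ((seifert G).symm x) := by
          by_contra h4
          exact hx.2 ⟨hb, h4⟩
        refine ⟨?_, inner_of_prev ho h hx.1 hb' (hprev x hx.1 hb')⟩
        have h5 := lf_next hb'
        rw [Equiv.apply_symm_apply] at h5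
        exact h5.symm.trans (mem_Out.1 hx.1).1
    · have key : ∀ x ∈ (Out G J).filter (fun x => ¬ (¬ Bigon G x ∧ ¬ Bigon G ((seifert G).symm x))),
          ∀ y ∈ (Out G J).filter (fun x => ¬ (¬ Bigon G x ∧ ¬ Bigon G ((seifert G).symm x))),
          Bigon G x → ¬ Bigon G y → seifert G x ≠ (seifert G).symm y := by
        intro x hx y hy hb hb' e
        rw [Finset.mem_filter] at hx hy
        have hb2 : Bigon G ((seifert G).symm y) := by
          by_contra h4
          exact hy.2 ⟨hb', h4⟩
        have h4 := hprev y hy.1 hb2
        rw [← e, Equiv.symm_apply_apply] at h4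
        exact (mem_Out.1 hx.1).2.1 h4
      intro x hx y hy e
      rw [Finset.mem_coe] at hx hy
      simp only at e
      by_cases hb : Bigon G x
      · by_cases hb' : Bigon G y
        · rw [if_pos hb, if_pos hb'] at e
          exact (seifert G).injective e
        · rw [if_pos hb, if_neg hb'] at e
          exact absurd e (key x hx y hy hb hb')
      · by_cases hb' : Bigon G y
        · rw [if_neg hb, if_pos hb'] at e
          exact absurd e.symm (key y hy x hx hb' hb)
        · rw [if_neg hb, if_neg hb'] at e
          exact (seifert G).symm.injective e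

end Pool.Agent.Helper57.C5
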