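import Pool.Agent.Helper2.C5.ModelB

/-!
# MP_ea8a26, project C5: the number of letters is bounded by the degree

A state `C` in which every smoothed letter is visited at the allowed passage first has the degree `|J| + |C|`; so there are at most `deg nabla` pairs, and the number of
letters is at most `deg nabla + |O|`: the number of crossings needs no bound.
-/

set_option autoImplicit false

namespace Pool.Agent.Helper57.C5

open Polynomial Classical Pool.Agent.Helper85.Exp Pool.Agent.Helper60.EV2 Pool.Agent.Helper43.Pln Pool.Agent.Helper85.EV4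
  Pool.Agent.Helper3.C5 Pool.Agent.Helper2.C5

variable {P : Type} {G : Sh P} [Fintype P]

theorem coeff_term (u j k : ℕ) : 0 ≤ ((X : ℤ[X]) ^ u * (1 + X ^ 2) ^ j).coeff k := by
  have h1 : ((X : ℤ[X]) ^ u * (1 + X ^ 2) ^ j) = ((X : ℕ[X]) ^ u * (1 + X ^ 2) ^ j).map (Nat.castRingHom ℤ) := by
    simp
  rw [h1, coeff_map]
  exact Int.natCast_nonneg _

theorem coeff_top (u j : ℕ) : ((X : ℤ[X]) ^ u * (1 + X ^ 2) ^ j).coeff (u + 2 * j) = 1 := by
  have h1 : (1 + X ^ 2 : ℤ[X]) = X ^ 2 + C 1 := by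
    rw [C_1]
    ring
  have hm : ((X : ℤ[X]) ^ u * (1 + X ^ 2) ^ j).Monic := by
    rw [h1]
    exact (monic_X_pow u).mul ((monic_X_pow_add_C 1 two_ne_zero).pow j)
  have hd : ((X : ℤ[X]) ^ u * (1 + X ^ 2) ^ j).natDegree = u + 2 * j := by
    rw [h1, (monic_X_pow u).natDegree_mul ((monic_X_pow_add_C 1 two_ne_zero).pow j), natDegree_X_pow, (monic_X_pow_add_C 1 two_ne_zero).natDegree_pow,
      natDegree_X_pow_add_C, mul_comm j 2]
  rw [← hd]
  exact hm.coeff_natDegree

/-- **The degree of a full state.** -/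
theorem deg_full {nab : Dg G → ℤ[X]} (hn : Cs nab) (ho : ∀ i, G.op i ≠ i) (b : P) {J : Finset P} (hJ : Pr G J) {C : Finset P}
    (hC : C ∈ stt (D1 G J) b) (hCa : av (D1 G J) b C = C) : J.card + C.card ≤ (nab (allPos G)).natDegree := by
  have hX := state_X hn ho hJ b
  have hCU : C ⊆ UU G J := (mem_stt.1 hC).1
  have e3 : C \ Out G J ⊆ JJ G J := by
    rw [← UU_sdiff ho hJ]
    exact Finset.sdiff_subset_sdiff hCU (Finset.Subset.refl _)
  have e2 : JJ G J \ C = JJ G J \ (C \ Out G J) := by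
    ext j
    simp only [Finset.mem_sdiff, not_and, not_not]
    constructor
    · rintro ⟨h3, h4⟩
      exact ⟨h3, fun h5 => absurd h5 h4⟩
    · rintro ⟨h3, h4⟩
      refine ⟨h3, fun h5 => ?_⟩
      exact Finset.disjoint_left.1 disj_JO h3 (h4 h5)
  have h1 : ((UU G J \ Out G J) \ C).card + (C \ Out G J).card = J.card := by
    rw [UU_sdiff ho hJ, e2, Finset.card_sdiff_of_subset e3, JJ_card]
    have := Finset.card_le_card e3
    rw [JJ_card] at this
    omega
  have h2 : (C ∩ Out G J).card + (C \ Out G J).card = C.card := Finset.card_inter_add_card_sdiff C (Out G J)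
  have hCD : C ∈ stD (stt (D1 G J) b) (Out G J) (av (D1 G J) b) := by
    unfold stD
    rw [Finset.mem_filter, hCa]
    exact ⟨hC, Finset.inter_subset_left⟩
  apply le_natDegree_of_ne_zero
  have h3 : J.card + C.card = ((C ∩ Out G J).card + ((UU G J \ Out G J) \ C).card) + 2 * (C \ Out G J).card := by omega
  have h4 : (1 : ℤ) ≤ (nab (allPos G)).coeff (J.card + C.card) := by
    rw [hX, finsetSum_coeff]
    refine le_trans ?_ (Finset.single_le_sum (f := fun C => (wD (UU G J) (Out G J) (av (D1 G J) b) (X : ℤ[X]) C).coeff (J.card + _))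
      (fun C' _ => coeff_term _ _ _) hCD)
    unfold wD
    rw [hCa, h3, coeff_top]
  omega

/-- **The number of pairs and the number of letters.** -/
theorem pairs_le_deg {nab : Dg G → ℤ[X]} (hn : Cs nab) (ho : ∀ i, G.op i ≠ i) (b : P) {J : Finset P} (hJ : Pr G J) (h0 : nab (allPos G) ≠ 0) :
    ∃ C ∈ stt (D1 G J) b, av (D1 G J) b C = C ∧ (nab (allPos G)).natDegree ≤ (nab (allPos G)).natTrailingDegree + 2 * C.card ∧
      J.card + C.card ≤ (nab (allPos G)).natDegree ∧ (UU G J).card ≤ (nab (allPos G)).natDegree + (Out G J).card := by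
  obtain ⟨C, hC, hCa, hC2⟩ := exists_top hn ho b hJ h0
  have h1 := deg_full hn ho b hJ hC hCa
  refine ⟨C, hC, hCa, hC2, h1, ?_⟩
  rw [UU_eq ho hJ]
  refine (Finset.card_union_le _ _).trans ?_
  rw [JJ_card]
  omega

end Pool.Agent.Helper57.C5
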