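import Pool.Agent.Helper57.C5.Fin

/-!
# MP_ea8a26, project [C*]: knots, and the final form with an alternative
-/

set_option autoImplicit false

namespace Pool.Agent.Helper57.C5

open Polynomial Classical Pool.Agent.Helper85.Exp Pool.Agent.Helper60.EV2 Pool.Agent.Helper43.Pln Pool.Agent.Helper2.V8B Pool.Agent.Helper85.EV4
  Pool.Agent.Helper85.E5 Pool.Agent.Helper2.C5 Pool.Agent.Helper3.C5

variable {P : Type} {G : Sh P} [Fintype P]

/-- The Conway polynomial of a knot starts in degree `0`. -/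
theorem ord_knot (hG : Plane G) {nab : Dg G → ℤ[X]} (hn : Cs nab) (h1 : numComponents G = 1) : (nab (allPos G)).natTrailingDegree = 0 := by
  obtain ⟨b⟩ := nonempty_of hG
  have hJ : Pr G ∅ := ⟨by simp, by simp, by simp, by simp⟩
  have hX := state_X hn hG.cross hJ b
  have hone : One ((D1 G ∅).sm ∅) b := by
    unfold D1
    rw [sm_empty, sm_empty]
    intro i
    unfold numComponents at h1
    rw [Nat.card_eq_one_iff_unique] at h1
    have h2 := h1.1.elim (Quotient.mk (Equiv.Perm.SameCycle.setoid G.nxt) b) (Quotient.mk (Equiv.Perm.SameCycle.setoid G.nxt) i)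
    have h3 : G.nxt.SameCycle b i := Quotient.exact h2
    obtain ⟨k, hk⟩ := h3.exists_nat_pow_eq
    refine ⟨k, ?_⟩
    have e : (allPos G).tr = G.nxt := by
      funext j
      have : (allPos G).st j ≠ .smooth := by
        show St.pos ≠ St.smooth
        decide
      show G.nxt (if (allPos G).st j = .smooth then G.op j else j) = G.nxt j
      rw [if_neg this]
    rw [e, ← Equiv.Perm.coe_pow, hk]
  have hmem : (∅ : Finset P) ∈ stD (stt (D1 G ∅) b) (Out G ∅) (av (D1 G ∅) b) := by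
    unfold stD
    rw [Finset.mem_filter, Pool.Agent.Helper2.C5.mem_stt]
    exact ⟨⟨Finset.empty_subset _, hone⟩, by simp⟩
  have h4 : (1 : ℤ) ≤ (nab (allPos G)).coeff 0 := by
    rw [hX, finsetSum_coeff]
    refine le_trans ?_ (Finset.single_le_sum (f := fun C => (wD (UU G ∅) (Out G ∅) (av (D1 G ∅) b) (X : ℤ[X]) C).coeff 0)
      (fun C' _ => coeff_term _ _ _) hmem)
    have e1 : UU G ∅ \ Out G ∅ = ∅ := by
      rw [UU_sdiff hG.cross hJ]
      unfold JJ
      simp
    have e2 : av (D1 G ∅) b ∅ = ∅ := by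
      unfold av
      simp
    unfold wD
    rw [e1, e2]
    simp
  have h5 := natTrailingDegree_le_of_ne_zero (p := nab (allPos G)) (n := 0) (by omega)
  omega

theorem deg_le_crossings (hG : Plane G) {nab : Dg G → ℤ[X]} (hn : Cs nab) : (nab (allPos G)).natDegree ≤ crossings G := by
  have hne := nonempty_of hG
  obtain ⟨-, hdeg, -⟩ := Pool.Agent.Helper60.PD.nab_nn hG.cross hn
  have hcard := card_eq (G := G) hG.cross
  change 2 * (nab (Pool.Agent.Helper43.Pln.allPos G)).natDegree ≤ _ at hdeg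
  omega

omit [Fintype P] in
/-- the two conditions as an alternative -/
theorem alt_of {K a d s i : ℕ} (h : a ≤ K * i ∨ (a ≤ K * d ∧ s ≤ K * i)) {e : ℕ} (he : e ≤ a) : a ≤ K * max d i ∧ min s e ≤ K * i := by
  rcases h with h | ⟨h, h'⟩
  · exact ⟨h.trans (Nat.mul_le_mul_left K (le_max_right _ _)), (min_le_right _ _).trans (he.trans h)⟩
  · exact ⟨h.trans (Nat.mul_le_mul_left K (le_max_left _ _)), (min_le_left _ _).trans h'⟩

/-- **[C*]**, final form. -/
theorem main_alt (N K : ℕ) : ∃ m₀ : ℕ, ∀ (P : Type) [Fintype P] (G : Sh P), Plane G →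
    (∀ e : P, side G (Bigon G) true e * side G (Bigon G) false e ≤ N) →
    ∀ nab : Dg G → ℤ[X], Cs nab → m₀ ≤ (nab (allPos G)).natDegree →
    (nab (allPos G)).natDegree ≤ K * inner G ∨
      ((nab (allPos G)).natDegree ≤ K * ((nab (allPos G)).natDegree - (nab (allPos G)).natTrailingDegree) ∧ singles G ≤ K * inner G) →
    LogConcave G nab := by
  obtain ⟨m₀, hm₀⟩ := main_cstar N K
  refine ⟨m₀, fun P _ G hG hN nab hn hm h => ?_⟩
  obtain ⟨h1, h2⟩ := alt_of h le_rfl
  exact hm₀ P G hG hN nab hn hm h1 h2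

/-- **[C*] for knots.** -/
theorem main_knot (N K : ℕ) : ∃ m₀ : ℕ, ∀ (P : Type) [Fintype P] (G : Sh P), Plane G → numComponents G = 1 →
    (∀ e : P, side G (Bigon G) true e * side G (Bigon G) false e ≤ N) →
    ∀ nab : Dg G → ℤ[X], Cs nab → m₀ ≤ (nab (allPos G)).natDegree → singles G ≤ K * inner G → LogConcave G nab := by
  obtain ⟨m₀, hm₀⟩ := main_alt N (K + 1)
  refine ⟨m₀, fun P _ G hG h1 hN nab hn hm h => hm₀ P G hG hN nab hn hm (Or.inr ⟨?_, ?_⟩)⟩
  · rw [ord_knot hG hn h1, Nat.sub_zero]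
    exact Nat.le_mul_of_pos_left _ (by omega)
  · exact h.trans (Nat.mul_le_mul_right _ (by omega))

/-- **Only finitely many exceptions**, final form. -/
theorem finite_alt (N K : ℕ) : {x : Σ m : ℕ, Sh (Fin m) | Plane x.2 ∧
    (∀ p, side x.2 (Bigon x.2) true p * side x.2 (Bigon x.2) false p ≤ N) ∧
    ∃ nab : Dg x.2 → ℤ[X], Cs nab ∧ (crossings x.2 ≤ K * inner x.2 ∨
      (crossings x.2 ≤ K * ((nab (allPos x.2)).natDegree - (nab (allPos x.2)).natTrailingDegree) ∧ singles x.2 ≤ K * inner x.2)) ∧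
      ¬ LogConcave x.2 nab}.Finite := by
  refine (finite_cstar N K).subset ?_
  rintro ⟨m, G⟩ ⟨hG, hN, nab, h, h1, hlc⟩
  obtain ⟨h2, h3⟩ := alt_of h1 (deg_le_crossings hG h)
  exact ⟨hG, hN, nab, h, h2, h3, hlc⟩

end Pool.Agent.Helper57.C5
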