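import Pool.Agent.Helper43.PD.Plane
import Pool.Agent.Helper60.PD.Full
import Pool.Agent.Helper57.C5.Knot

/-!
# MP_ea8a26_gt: Q1 for positive diagrams with long twist regions, the numbers of Seifert circles and of crossings per twist region are not bounded

A diagram without signs is a shadow `G : Sh P` (`Helper85.EV2.Exp`): `P` is the finite set of the passages of the link through the crossings, `nxt i` the next passage along the link, `op i`
the other passage of the same crossing, and `lf i = true` if the other strand crosses from the left to the right, seen in the direction of travel. The edge `i` goes from the passage `i` to the
passage `nxt i`. `Face G` (`Helper2.PD.Faces`) are the faces: the classes of the sides of the edges under turning left at every crossing. `Plane G` (`Helper43.PD.Plane`): every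
passage belongs to a crossing, `G` is connected, and the number of faces is the number of crossings plus two, so that `G` is a connected diagram in the sphere. `Dg G` are the diagrams on `G`,
each crossing positive, negative or smoothed; `allPos G` is the positive one. `Cs nab` (`Helper60.EV2.Exist`): `nab` has the properties of the Conway polynomial on these diagrams; there is
exactly one such `nab`.

`Bigon G p` (`Helper2.V8B.Def`): the edges `p` and `op p`, which leave the same crossing, also enter the same crossing, on the same sides; they bound a bigon between two parallel
crossings. A twist region is a maximal chain of crossings joined by such bigons. `side G (Bigon G) true p` and `side G (Bigon G) false p` are the numbers of twist regions on the two sides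
of the Seifert circle of the edge `p` (each is counted at its last crossing). `Inner G q` (`Helper85.EV4.Def`): the crossing of `q` is the middle one of three different
consecutive crossings of a twist region; `inner G` is the number of these crossings. `singles G` (`Helper57.C5.Pairs`) is the number of twist regions which consist of one crossing.

Proof. Put `z = s⁻¹ - s`. For a zero `z` of `∇` there is a nonzero solution `c` of the equations `c_N + s² c_S = s (c_W + c_E)` on the four faces of every crossing. Two quadratic identities for `c` and an
estimate of the coupling of the two sides of one Seifert circle show that `z` is purely imaginary with `|z| ≤ 2`, or in a bounded sector around the imaginary axis away from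
`0`, which depends on `N` only: inside a twist region the jumps of `c` form a geometric progression with the ratio `-s²`, so that a long twist region is like a single crossing.

If the degree is at most a multiple of the number of inner crossings: three parallel crossings satisfy `∇ = z A₀ + (1 + z²) A₁` with `A₁(|z|) ≥ |z| A₀(|z|)`, because diagrams with one negative
crossing have nonnegative coefficients; every inner crossing therefore gives a factor smaller than `1` in the bound of `|∇(z)|` by `∇(|z|)`, away from the real axis. Where the
variance of the coefficient distribution at a radius, computed from the zeros, is large, this gives a local limit theorem for the coefficients. The lowest and the highest coefficients are treated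
by real zeros near `0` and near infinity. Where the radius and the variance are small, the zeros near `0` are real and split into those much smaller and those much larger than the radius; this
localises the coefficients of the product over the near zeros, and the log-concavity with the weights `(n + A + 1) : (n + A)` of the low coefficients of the product over the far zeros is
inherited by the product.

Otherwise almost all crossings are arranged in pairs of consecutive crossings of a twist region, `σ² = 1 + z σ`. The state sum over the sets `C` of smoothed letters that leave one component is
`∇(z) = ∑ z^{u(C)} (1 + z²)^{j(C)}`, where `j(C)` is the number of pairs in `C` which are first visited from below. In the sum over all `C` with the letters `1 + z σ` also at the crossings outside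
the pairs, `j` and `|C| - j` have the same distribution, by `x + σ = σ⁻¹ + (x + z)` and the mirror image. A state in which all smoothed letters are first visited from below, with
`2 |C| ≥ deg ∇ - ord ∇`, and this symmetry show that the states with small `j(C)` carry an exponentially small part of `∇(|z|)` at all radii in a compact set. So `∇` is, up to this part, a mixture of
powers `(1 + z²)^j` with `j` at least a multiple of the degree, which gives the linear variance and the decay away from the real axis; the rest is as before.
-/

set_option autoImplicit false

namespace Pool.Agent.Helper57.C5.Draft

open Polynomial Pool.Agent.Helper85.Exp Pool.Agent.Helper60.EV2 Pool.Agent.Helper43.Pln Pool.Agent.Helper2.V8B Pool.Agent.Helper85.EV4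
  Pool.Agent.Helper85.E5 Pool.Agent.Helper57.C5

/-- The Seifert circles with `l` and `r` twist regions on their two sides satisfy `l r ≤ N`. -/
def Sparse {P : Type} (G : Sh P) (N : ℕ) : Prop := ∀ p : P, side G (Bigon G) true p * side G (Bigon G) false p ≤ N

/-- `d` (the degree of `∇`, or the number of crossings) is at most `K` times the number of inner crossings; or at most `K` times the difference of the highest and the lowest exponent of `∇`,
and the number of the twist regions with one crossing is at most `K` times the number of inner crossings. -/
def Long {P : Type} (G : Sh P) (nab : Dg G → ℤ[X]) (K d : ℕ) : Prop :=
  d ≤ K * inner G ∨ (d ≤ K * ((nab (allPos G)).natDegree - (nab (allPos G)).natTrailingDegree) ∧ singles G ≤ K * inner G)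

/-- **Main theorem.** On the diagrams of every connected shadow in the sphere there is exactly one Conway polynomial. For all `N` and `K` there is `m₀` such that the inequality of Q1
holds, for all integers `k`, for the positive diagram on every connected shadow in the sphere in which every Seifert circle, with `l` twist regions on one
side and `r` on the other, satisfies `l r ≤ N`, in which the degree `d` of the Conway polynomial `∇` is at least `m₀`, and in which `d` is at most `K` times the number of crossings that are the
middle one of three consecutive crossings of a twist region, or `d` is at most `K` times the difference of the highest and the lowest exponent of `∇`, and the number of twist regions with one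
crossing is at most `K` times the number of these middle crossings. For knots this difference is `d`. In particular only finitely many shadows (on `m` passages, numbered from `0` to `m - 1`) with
this property, `d` being the number of crossings, violate it. -/
theorem result :
    (∀ (P : Type) [Fintype P] (G : Sh P), Plane G → ∃! nab : Dg G → ℤ[X], Cs nab) ∧
    ∀ N K : ℕ,
      (∃ m₀ : ℕ, ∀ (P : Type) [Fintype P] (G : Sh P), Plane G → Sparse G N → ∀ nab : Dg G → ℤ[X], Cs nab →
        m₀ ≤ (nab (allPos G)).natDegree → Long G nab K (nab (allPos G)).natDegree → LogConcave G nab) ∧
      (∃ m₀ : ℕ, ∀ (P : Type) [Fintype P] (G : Sh P), Plane G → numComponents G = 1 → Sparse G N → ∀ nab : Dg G → ℤ[X], Cs nab →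
        m₀ ≤ (nab (allPos G)).natDegree → singles G ≤ K * inner G → LogConcave G nab) ∧
      {x : Σ m : ℕ, Sh (Fin m) | Plane x.2 ∧ Sparse x.2 N ∧ ∃ nab : Dg x.2 → ℤ[X], Cs nab ∧ Long x.2 nab K (crossings x.2) ∧
        ¬ LogConcave x.2 nab}.Finite := by
  refine ⟨fun P _ G h => ?_, fun N K => ⟨main_alt N K, main_knot N K, finite_alt N K⟩⟩
  have := nonempty_of h
  exact Pool.Agent.Helper60.PD.exists_unique_nab h.conn h.cross h.genus

end Pool.Agent.Helper57.C5.Draft
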