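import Pool.Agent.Helper57.C5.InnerDeg

/-!
# MP_ea8a26, project [C*]: the finiteness form
-/

set_option autoImplicit false

namespace Pool.Agent.Helper57.C5

open Polynomial Pool.Agent.Helper85.Exp Pool.Agent.Helper60.EV2 Pool.Agent.Helper43.Pln Pool.Agent.Helper2.V8B Pool.Agent.Helper85.EV4
  Pool.Agent.Helper85.E5

/-- **[C*] with the number of crossings.** -/
theorem crossings_cstar (N K : ℕ) : ∃ m₀ : ℕ, ∀ (P : Type) [Fintype P] (G : Sh P), Plane G →
    (∀ e : P, side G (Bigon G) true e * side G (Bigon G) false e ≤ N) →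
    ∀ nab : Dg G → ℤ[X], Cs nab → m₀ ≤ crossings G →
    crossings G ≤ K * max ((nab (allPos G)).natDegree - (nab (allPos G)).natTrailingDegree) (inner G) →
    min (singles G) (nab (allPos G)).natDegree ≤ K * inner G → LogConcave G nab := by
  obtain ⟨m₀, hm₀⟩ := main_cstar N K
  refine ⟨K * (3 * m₀) + 1, fun P _ G hG hN nab hn hm h1 h2 => ?_⟩
  by_cases h0 : nab (allPos G) = 0
  · intro k
    rw [h0]
    unfold coeffX
    split_ifs <;> simp
  have hne := nonempty_of hG
  obtain ⟨-, hdeg, -⟩ := Pool.Agent.Helper60.PD.nab_nn hG.cross hn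
  have hcard := card_eq (G := G) hG.cross
  change 2 * (nab (Pool.Agent.Helper43.Pln.allPos G)).natDegree ≤ _ at hdeg
  rcases Nat.lt_or_ge (nab (allPos G)).natDegree m₀ with h | h
  · exfalso
    have h3 := inner_le_deg hG hn h0
    have h4 : max ((nab (allPos G)).natDegree - (nab (allPos G)).natTrailingDegree) (inner G) ≤ 3 * m₀ := by
      rw [max_le_iff]
      omega
    have h5 := Nat.mul_le_mul_left K h4
    omega
  · exact hm₀ P G hG hN nab hn h (by omega) h2

/-- **Only finitely many exceptions.** -/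
theorem finite_cstar (N K : ℕ) : {x : Σ m : ℕ, Sh (Fin m) | Plane x.2 ∧
    (∀ p, side x.2 (Bigon x.2) true p * side x.2 (Bigon x.2) false p ≤ N) ∧
    ∃ nab : Dg x.2 → ℤ[X], Cs nab ∧
      crossings x.2 ≤ K * max ((nab (allPos x.2)).natDegree - (nab (allPos x.2)).natTrailingDegree) (inner x.2) ∧
      min (singles x.2) (nab (allPos x.2)).natDegree ≤ K * inner x.2 ∧ ¬ LogConcave x.2 nab}.Finite := by
  obtain ⟨m₀, hm₀⟩ := crossings_cstar N K
  refine (finite_few m₀).subset ?_
  rintro ⟨m, G⟩ ⟨hG, hN, nab, h, h1, h2, hlc⟩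
  refine ⟨hG.cross, ?_⟩
  by_contra hm
  exact hlc (hm₀ _ G hG hN nab h (not_lt.1 hm) h1 h2)

end Pool.Agent.Helper57.C5
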