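import Pool.Agent.Helper57.C5.Main

/-!
# MP_ea8a26, project [C*]: the number of inner crossings is at most three times the degree

A maximal set of pairs meets every three consecutive crossings of a twist region; the number of pairs is at most the degree.
-/

set_option autoImplicit false

namespace Pool.Agent.Helper57.C5

open Polynomial Classical Pool.Agent.Helper85.Exp Pool.Agent.Helper60.EV2 Pool.Agent.Helper43.Pln Pool.Agent.Helper2.V8B Pool.Agent.Helper85.EV4
  Pool.Agent.Helper85.E5 Pool.Agent.Helper2.C5 Pool.Agent.Helper3.C5

variable {P : Type} {G : Sh P} [Fintype P]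

theorem inner_le_pairs {J : Finset P} (hmax : ∀ p ∈ Out G J, Bigon G p → seifert G p ≠ p → seifert G p ∉ Out G J) :
    inner G ≤ 3 * J.card := by
  have h1 : (Finset.univ.filter fun q => G.lf q = true ∧ Inner G q) ⊆ (J ∪ J.image (seifert G)) ∪ J.image (seifert G).symm := by
    intro q hq
    rw [Finset.mem_filter] at hq
    obtain ⟨-, hlf, hI⟩ := hq
    have hb : Bigon G q := hI.next
    have hne : seifert G q ≠ q := by
      intro e
      apply hI.ne
      have h2 : G.op (G.nxt q) = q := e
      have h3 := congrArg G.op h2
      rwa [G.op_op] at h3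
    rw [Finset.mem_union, Finset.mem_union, Finset.mem_image, Finset.mem_image]
    by_cases hq : q ∈ Out G J
    · have h2 := hmax q hq hb hne
      rw [mem_Out] at h2
      by_contra hcon
      push Not at hcon
      apply h2
      refine ⟨(lf_next hb).trans hlf, fun h3 => ?_, fun h3 => ?_⟩
      · exact hcon.2 _ h3 (Equiv.symm_apply_apply _ _)
      · rw [Equiv.symm_apply_apply] at h3
        exact hcon.1.1 h3
    · rw [mem_Out] at hq
      push Not at hq
      by_cases h2 : q ∈ J
      · exact Or.inl (Or.inl h2)
      · exact Or.inl (Or.inr ⟨_, hq hlf h2, Equiv.apply_symm_apply _ _⟩)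
  have h2 := Finset.card_le_card h1
  have h3 := Finset.card_union_le (J ∪ J.image (seifert G)) (J.image (seifert G).symm)
  have h4 := Finset.card_union_le J (J.image (seifert G))
  have h5 := Finset.card_image_le (s := J) (f := seifert G)
  have h6 := Finset.card_image_le (s := J) (f := (seifert G).symm)
  unfold Pool.Agent.Helper85.EV4.inner
  rw [Nat.card_eq_fintype_card, Fintype.card_subtype]
  omega

/-- **The number of inner crossings.** -/
theorem inner_le_deg (hG : Plane G) {nab : Dg G → ℤ[X]} (hn : Cs nab) (h0 : nab (allPos G) ≠ 0) : inner G ≤ 3 * (nab (allPos G)).natDegree := by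
  obtain ⟨J, hJ, hmax⟩ := exists_max G
  obtain ⟨b⟩ := nonempty_of hG
  obtain ⟨C, -, -, -, h1, -⟩ := pairs_le_deg hn hG.cross b hJ h0
  have h2 := inner_le_pairs hmax
  omega

end Pool.Agent.Helper57.C5
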