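import Pool.Agent.Helper57.C5.Deg
import Pool.Agent.Helper3.C5.Num
import Pool.Agent.Helper74.EV5.Half
import Pool.Agent.Helper85.E5.Main

/-!
# MP_ea8a26, project [C*]: the final theorem

`l r ≤ N` for every Seifert circle, the degree of `∇` is at most a multiple of the larger one of `deg ∇ - ord ∇` and the number of inner crossings, and the number of twist regions
with one crossing (or the degree) is at most a multiple of the number of inner crossings.
-/

set_option autoImplicit false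

namespace Pool.Agent.Helper57.C5

open Polynomial Pool.Agent.Helper85.Exp Pool.Agent.Helper60.EV2 Pool.Agent.Helper43.Pln Pool.Agent.Helper2.V8B Pool.Agent.Helper85.EV4
  Pool.Agent.Helper85.E5 Pool.Agent.Helper2.C5 Pool.Agent.Helper3.C5

open scoped Classical in
/-- **[C*]** -/
theorem main_cstar (N K : ℕ) : ∃ m₀ : ℕ, ∀ (P : Type) [Fintype P] (G : Sh P), Plane G →
    (∀ e : P, side G (Bigon G) true e * side G (Bigon G) false e ≤ N) →
    ∀ nab : Dg G → ℤ[X], Cs nab → m₀ ≤ (nab (allPos G)).natDegree →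
    (nab (allPos G)).natDegree ≤ K * max ((nab (allPos G)).natDegree - (nab (allPos G)).natTrailingDegree) (inner G) →
    min (singles G) (nab (allPos G)).natDegree ≤ K * inner G → LogConcave G nab := by
  have hN8 : (8 : ℝ) ≤ 96 * ((N : ℝ) + 2) ^ 2 := by nlinarith [(Nat.cast_nonneg N : (0 : ℝ) ≤ N)]
  obtain ⟨κ, hκ⟩ : ∃ κ : ℝ, κ = K + 1 := ⟨_, rfl⟩
  have hK0 : (0 : ℝ) ≤ K := Nat.cast_nonneg K
  have hκ1 : 1 ≤ κ := by rw [hκ]; linarith
  have hη : 0 < mu κ / 8 := by
    have := mu_pos hκ1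
    positivity
  have hη1 : mu κ / 8 ≤ 1 := by
    have h1 := mu_le hκ1
    have h2 : 1 / (4 * κ) ≤ 1 := by
      rw [div_le_one (by linarith)]
      linarith
    linarith
  obtain ⟨r₁, hr0, hr1, hfin⟩ := Pool.Agent.Helper74.EV5.fin_mix_of core5 hN8 hη hη1
  obtain ⟨δ, γ, hδ0, hδ1, hγ, L₁, htail⟩ := tail_num hκ1 hr0
  obtain ⟨L₀, hL₀⟩ := hfin γ hγ
  obtain ⟨K', hK'⟩ := exists_nat_ge (κ / δ)
  have hKK : κ ≤ δ * K' := by
    rw [div_le_iff₀ hδ0] at hK'
    linarith
  have hKK2 : K + 1 ≤ K' := by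
    have h1 : δ * K' ≤ 1 * K' := mul_le_mul_of_nonneg_right hδ1 (Nat.cast_nonneg _)
    have h2 : (K : ℝ) + 1 ≤ K' := by
      rw [hκ] at hKK
      linarith
    exact_mod_cast h2
  obtain ⟨m₁, hm₁⟩ := main_deg N K'
  refine ⟨max (max L₀ L₁) (max 2 (K' * m₁ + 1)), fun P _ G hG hN nab hn hm hii hiii => ?_⟩
  obtain ⟨L, hL⟩ : ∃ L, L = (nab (allPos G)).natDegree := ⟨_, rfl⟩
  rw [← hL] at hm hii hiii
  have hLa : L₀ ≤ L := ((le_max_left _ _).trans (le_max_left _ _)).trans hm
  have hLb : L₁ ≤ L := ((le_max_right _ _).trans (le_max_left _ _)).trans hm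
  have hLc : 2 ≤ L := ((le_max_left _ _).trans (le_max_right _ _)).trans hm
  have hLd : K' * m₁ + 1 ≤ L := ((le_max_right _ _).trans (le_max_right _ _)).trans hm
  rcases Nat.lt_or_ge (K' * inner G) L with hc | hc
  swap
  · -- many inner crossings
    refine hm₁ P G hG hN ?_ nab hn (by rw [← hL]; exact hc)
    by_contra h
    push Not at h
    have := Nat.mul_le_mul_left K' h.le
    omega
  -- few inner crossings
  have hKi : K * inner G < L := lt_of_le_of_lt (Nat.mul_le_mul_right _ (by omega : K ≤ K')) hc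
  have h0 : nab (allPos G) ≠ 0 := by
    intro h
    rw [h, natDegree_zero] at hL
    omega
  have hii' : L ≤ K * (L - (nab (allPos G)).natTrailingDegree) := by
    rcases le_total (L - (nab (allPos G)).natTrailingDegree) (inner G) with h | h
    · rw [max_eq_right h] at hii
      omega
    · rwa [max_eq_left h] at hii
  have hiii' : singles G ≤ K * inner G := by
    rcases le_total (singles G) L with h | h
    · rwa [min_eq_left h] at hiii
    · rw [min_eq_right h] at hiii
      omega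
  have hne := nonempty_of hG
  obtain ⟨nn, hdeg, hpar⟩ := Pool.Agent.Helper60.PD.nab_nn hG.cross hn
  change ∀ k, 0 ≤ (nab (Pool.Agent.Helper43.Pln.allPos G)).coeff k at nn
  have hcr : 2 ≤ crossings G := by
    have h1 := card_eq (G := G) hG.cross
    change 2 * (nab (Pool.Agent.Helper43.Pln.allPos G)).natDegree ≤ _ at hdeg
    omega
  obtain ⟨J, hJ, -, hout⟩ := pairs hG.cross hG.conn hcr
  obtain ⟨b⟩ := hne
  obtain ⟨C, hC, hCa, hCg, -, hUU⟩ := pairs_le_deg hn hG.cross b hJ h0
  have hM := model hG hn b hJ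
  -- the three inequalities for the numbers
  have ho : ((Out G J).card : ℝ) ≤ δ * L := by
    have h1 : ((Out G J).card : ℝ) ≤ κ * inner G := by
      have h2 : (Out G J).card ≤ (K + 1) * inner G := by
        rw [Nat.add_mul, Nat.one_mul]
        omega
      rw [hκ]
      exact_mod_cast h2
    have h3 : κ * (inner G : ℝ) ≤ δ * K' * inner G := mul_le_mul_of_nonneg_right hKK (Nat.cast_nonneg _)
    have h4 : (K' : ℝ) * inner G ≤ L := by exact_mod_cast hc.le
    have h5 := mul_le_mul_of_nonneg_left h4 hδ0.le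
    linarith
  have hn' : (((UU G J).card : ℕ) : ℝ) ≤ 2 * L := by
    have h1 : ((UU G J).card : ℝ) ≤ L + (Out G J).card := by
      rw [← hL] at hUU
      exact_mod_cast hUU
    have h2 : δ * (L : ℝ) ≤ 1 * L := mul_le_mul_of_nonneg_right hδ1 (Nat.cast_nonneg _)
    linarith
  have hg : (L : ℝ) ≤ 2 * κ * (C.card : ℕ) := by
    have h1 : L ≤ K * (2 * C.card) := hii'.trans (Nat.mul_le_mul_left K (by omega))
    have h2 : (L : ℝ) ≤ K * (2 * C.card) := by exact_mod_cast h1
    have h3 : (0 : ℝ) ≤ C.card := Nat.cast_nonneg _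
    rw [hκ]
    nlinarith
  obtain ⟨t1, t2, t3⟩ := htail L hLb (UU G J).card (Out G J).card C.card hn' hg ho
  refine lc_int (fun i => ?_) _
  refine hL₀ L hLa _ nn hpar h0 hL.ge (fun z hz => zfree_rows hG nab hn hN hz) (Finset P) (stD (stt (D1 G J) b) (Out G J) (av (D1 G J) b))
    (fun C => (C ∩ Out G J).card + ((UU G J \ Out G J) \ C).card) (fun C => (av (D1 G J) b C \ Out G J).card)
    (fun z => state_aeval hn hG.cross hJ b z) ?_ i
  intro t ht1 ht2
  have ht : 0 < t := lt_of_lt_of_le hr0 ht1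
  have hst : 0 < √t := Real.sqrt_pos.2 ht
  have hsq : √t ^ 2 = t := Real.sq_sqrt ht.le
  have hx : 2 ≤ √t + 1 / √t := by
    have h1 : √t + 1 / √t = (t + 1) / √t := by
      field_simp
      rw [hsq]
    rw [h1, le_div_iff₀ hst]
    nlinarith [sq_nonneg (√t - 1)]
  have h1 := hM.tail hst ⟨C, hC, hCa, le_rfl⟩ (dom hG.cross hn b hJ hst) (Y := 64 * κ) (by linarith) t1 t2
  have h2 := t3 t ht1 ht2 _ hx
  rw [← state_aeval hn hG.cross hJ b (√t), hsq] at h1
  have hpos : (0 : ℝ) ≤ aeval √t (nab (allPos G)) := by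
    rw [aeval_eq_sum_range]
    refine Finset.sum_nonneg fun j _ => ?_
    rw [zsmul_eq_mul]
    exact mul_nonneg (by exact_mod_cast nn j) (by positivity)
  have h3 := h1.trans (mul_le_mul_of_nonneg_right h2 hpos)
  refine le_trans (le_of_eq ?_) h3
  have e1 : (stD (stt (D1 G J) b) (Out G J) (av (D1 G J) b)).filter (fun C => ((av (D1 G J) b C \ Out G J).card : ℝ) ≤ mu κ / 8 * L) =
      (stD (stt (D1 G J) b) (Out G J) (av (D1 G J) b)).filter (fun C => (av (D1 G J) b C \ Out G J).card ≤ ⌊mu κ / 8 * (L : ℝ)⌋₊) := by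
    refine Finset.filter_congr fun C _ => ?_
    rw [Nat.le_floor_iff (by positivity)]
  rw [e1]
  refine Finset.sum_congr rfl fun C _ => ?_
  unfold wD
  rw [hsq]

end Pool.Agent.Helper57.C5
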