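import Pool.Agent.Helper57.C5.Pairs

/-!
# MP_ea8a26, project C5: the pairs in the form of `Big`
-/

set_option autoImplicit false

namespace Pool.Agent.Helper57.C5

open Classical Pool.Agent.Helper85.Exp Pool.Agent.Helper43.Pln Pool.Agent.Helper2.V8B Pool.Agent.Helper85.EV4 Pool.Agent.Helper60.EV2

variable {P : Type} {G : Sh P}

/-- The passages through the two crossings of a pair. -/
noncomputable def cr4 (G : Sh P) (p : P) : Finset P := {p, G.op p, G.nxt p, G.op (G.nxt p)}

theorem mem_cr4 {p e : P} : e ∈ cr4 G p ↔ e = p ∨ e = G.op p ∨ e = G.nxt p ∨ e = G.op (G.nxt p) := by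
  simp [cr4]

theorem nxt_op {q : P} (h : Bigon G q) : G.nxt (G.op q) = seifert G q := h.1

theorem big_of (ho : ∀ i, G.op i ≠ i) {q : P} (h : Bigon G q) (hne : seifert G q ≠ q) : Big G (G.op q) where
  opp := ho _
  nx := by
    rw [G.op_op, h.1, G.op_op]
  side := by
    rw [nxt_op h, lf_next h, G.lf_op _ (ho q)]
    cases G.lf q <;> simp
  ne := by
    rw [nxt_op h, G.op_op]
    exact hne

variable [Fintype P]

/-- **The pairs, in the form of `Big`**: `Q` is a set of passages `p` such that the crossings of `p` and of `nxt p` are consecutive in a twist region and different; all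
these crossings are different; the number of the other crossings is bounded; `L` is the set of the lower passages of the letters: the second crossings of the pairs and the
crossings outside the pairs. -/
theorem pairsQ (ho : ∀ i, G.op i ≠ i) (hc : Pool.Agent.Helper2.PD.Conn G) (h2 : 2 ≤ crossings G) :
    ∃ Q : Finset P, (∀ p ∈ Q, Big G p ∧ G.lf p = false ∧ G.lf (G.nxt p) = true) ∧
      (∀ p ∈ Q, ∀ p' ∈ Q, p ≠ p' → Disjoint (cr4 G p) (cr4 G p')) ∧
      2 * Q.card + (Finset.univ.filter fun i => G.lf i = true ∧ G.op i ∉ Q ∧ G.nxt.symm i ∉ Q).card = crossings G ∧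
      (Finset.univ.filter fun i => G.lf i = true ∧ G.op i ∉ Q ∧ G.nxt.symm i ∉ Q).card ≤
        singles G + Pool.Agent.Helper85.EV4.inner G := by
  obtain ⟨J, h, h3, h4⟩ := pairs ho hc h2
  have hinj : Function.Injective G.op := fun a b e => by
    rw [← G.op_op a, e, G.op_op]
  have hQ : ∀ p, p ∈ J.image G.op ↔ G.op p ∈ J := by
    intro p
    rw [Finset.mem_image]
    constructor
    · rintro ⟨q, hq, rfl⟩
      rwa [G.op_op]
    · intro hp
      exact ⟨_, hp, G.op_op p⟩
  have hO : (Finset.univ.filter fun i => G.lf i = true ∧ G.op i ∉ J.image G.op ∧ G.nxt.symm i ∉ J.image G.op) = Out G J := by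
    ext i
    rw [mem_Out, Finset.mem_filter, hQ, hQ, G.op_op]
    refine ⟨fun hi => ⟨hi.2.1, hi.2.2.1, fun h5 => ?_⟩, fun hi => ⟨Finset.mem_univ _, hi.1, hi.2.1, fun h5 => ?_⟩⟩
    · apply hi.2.2.2
      have h6 := nxt_op (h.big _ h5)
      rw [Equiv.apply_symm_apply] at h6
      have h7 : G.nxt.symm i = G.op ((seifert G).symm i) := by
        rw [Equiv.symm_apply_eq]
        exact h6.symm
      rw [h7, G.op_op]
      exact h5
    · apply hi.2.2
      have h6 := nxt_op (h.big _ h5)
      rw [G.op_op, Equiv.apply_symm_apply] at h6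
      have h7 : (seifert G).symm i = G.op (G.nxt.symm i) := by
        rw [Equiv.symm_apply_eq]
        exact h6
      rw [h7]
      exact h5
  have hcard : (J.image G.op).card = J.card := Finset.card_image_of_injective J hinj
  refine ⟨J.image G.op, ?_, ?_, ?_, ?_⟩
  · intro p hp
    obtain ⟨q, hq, rfl⟩ := Finset.mem_image.1 hp
    refine ⟨big_of ho (h.big q hq) (h.ne q hq), ?_, ?_⟩
    · rw [G.lf_op _ (ho q), h.lf q hq]
      rfl
    · rw [nxt_op (h.big q hq), lf_next (h.big q hq), h.lf q hq]
  · intro p hp p' hp' hne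
    obtain ⟨q, hq, rfl⟩ := Finset.mem_image.1 hp
    obtain ⟨q', hq', rfl⟩ := Finset.mem_image.1 hp'
    have hqq : q ≠ q' := fun e => hne (by rw [e])
    have hmem : ∀ {q : P}, q ∈ J → ∀ e, e ∈ cr4 G (G.op q) → (e = q ∨ e = seifert G q) ∨ (G.op e = q ∨ G.op e = seifert G q) := by
      intro q hq e he
      rw [mem_cr4, nxt_op (h.big q hq), G.op_op] at he
      rcases he with rfl | rfl | rfl | rfl
      · exact Or.inr (Or.inl (G.op_op q))
      · exact Or.inl (Or.inl rfl)
      · exact Or.inl (Or.inr rfl)
      · exact Or.inr (Or.inr (G.op_op _))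
    have hlf : ∀ {q : P}, q ∈ J → ∀ e, (e = q ∨ e = seifert G q) → G.lf e = true := by
      rintro q hq e (rfl | rfl)
      · exact h.lf _ hq
      · exact (lf_next (h.big _ hq)).trans (h.lf _ hq)
    have hno : ∀ e, (e = q ∨ e = seifert G q) → (e = q' ∨ e = seifert G q') → False := by
      rintro e (h5 | h5) (h6 | h6)
      · exact hqq (h5.symm.trans h6)
      · exact h.disj q' hq' (by rw [← h6, h5]; exact hq)
      · exact h.disj q hq (by rw [← h5, h6]; exact hq')
      · exact hqq ((seifert G).injective (h5.symm.trans h6))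
    rw [Finset.disjoint_left]
    intro e he he'
    rcases hmem hq e he with h5 | h5 <;> rcases hmem hq' e he' with h6 | h6
    · exact hno e h5 h6
    · have h7 := hlf hq e h5
      have h8 := hlf hq' _ h6
      rw [G.lf_op _ (ho e), h7] at h8
      simp at h8
    · have h7 := hlf hq _ h5
      have h8 := hlf hq' e h6
      rw [G.lf_op _ (ho e), h8] at h7
      simp at h7
    · exact hno _ h5 h6
  · rw [hO, hcard]
    exact h3
  · rw [hO]
    exact h4

end Pool.Agent.Helper57.C5
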